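import Pool.Agent.Lib.MP_ed1a61_al_W.Cnt

/-! # The abelianisation: `a^24`, `b^24`, `(a s b s)^24` are in the commutator subgroup -/

set_option autoImplicit false

namespace SclIrr.U

open SclIrr.W

variable {H : Type*} [Group H]

/-- The image of a positive word in a commutative group. -/
theorem prod_comm {A : Type*} [CommGroup A] (x y : A) (w : List (Fin 2)) :
    (w.map ![x, y]).prod = x ^ w.count 0 * y ^ w.count 1 := by
  induction w with
  | nil => simp
  | cons z w ih =>
    rw [List.map_cons, List.prod_cons, ih]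
    have h0 : z = 0 ∨ z = 1 := by omega
    rcases h0 with rfl | rfl
    · rw [List.count_cons_self, List.count_cons_of_ne (by decide), pow_succ]
      simp only [Matrix.cons_val_zero]
      rw [mul_comm (x ^ _) x, mul_assoc]
    · rw [List.count_cons_self, List.count_cons_of_ne (by decide), pow_succ]
      simp only [Matrix.cons_val_one, Matrix.cons_val_fin_one]
      rw [mul_comm (y ^ _) y, mul_left_comm]

theorem map_prod_word {A : Type*} [CommGroup A] (f : H →* A) (a b : H) (w : List (Fin 2)) :
    f (w.map ![a, b]).prod = f a ^ w.count 0 * f b ^ w.count 1 := by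
  rw [← prod_comm, map_list_prod, List.map_map]
  congr 1
  apply List.map_congr_left
  intro z _
  fin_cases z <;> simp

theorem ab_aux {A : Type*} [CommGroup A] (x y : A) (h1 : x ^ 12 * y ^ 9 = 1)
    (h2 : x ^ 16 * y ^ 10 = 1) : x ^ 24 = 1 ∧ y ^ 24 = 1 := by
  constructor
  · have e : (x ^ 16 * y ^ 10) ^ 9 = (x ^ 12 * y ^ 9) ^ 10 * x ^ 24 := by
      rw [mul_pow, mul_pow, ← pow_mul, ← pow_mul, ← pow_mul, ← pow_mul, mul_right_comm, ← pow_add]
    rw [h1, h2, one_pow, one_pow, one_mul] at e
    exact e.symm
  · have e : (x ^ 12 * y ^ 9) ^ 16 = (x ^ 16 * y ^ 10) ^ 12 * y ^ 24 := by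
      rw [mul_pow, mul_pow, ← pow_mul, ← pow_mul, ← pow_mul, ← pow_mul, mul_assoc, ← pow_add]
    rw [h1, h2, one_pow, one_pow, one_mul] at e
    exact e.symm

theorem mem_commutator_iff (x : H) : x ∈ commutator H ↔ Abelianization.of x = 1 := by
  rw [← Abelianization.ker_of, MonoidHom.mem_ker]

section

variable {a b t s : H} (hs : s * s = 1) (ha : t * a * t⁻¹ = ((phL 0).map ![a, b]).prod)
  (hb : t * b * t⁻¹ = ((phL 1).map ![a, b]).prod)

include ha hb

theorem ab_pow : Abelianization.of a ^ 24 = 1 ∧ Abelianization.of b ^ 24 = 1 := by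
  have c1 : (phL 0).count 0 = 13 := by decide
  have c2 : (phL 0).count 1 = 9 := by decide
  have c3 : (phL 1).count 0 = 16 := by decide
  have c4 : (phL 1).count 1 = 11 := by decide
  have h1 := congrArg Abelianization.of ha
  have h2 := congrArg Abelianization.of hb
  rw [map_prod_word, c1, c2, map_mul, map_mul, map_inv, mul_comm (Abelianization.of t),
    mul_inv_cancel_right] at h1
  rw [map_prod_word, c3, c4, map_mul, map_mul, map_inv, mul_comm (Abelianization.of t),
    mul_inv_cancel_right] at h2
  refine ab_aux _ _ ?_ ?_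
  · have e : Abelianization.of a * (Abelianization.of a ^ 12 * Abelianization.of b ^ 9) =
        Abelianization.of a ^ 13 * Abelianization.of b ^ 9 := by
      rw [← mul_assoc, ← pow_succ']
    rw [← h1] at e
    exact mul_eq_left.1 e
  · have e : Abelianization.of b * (Abelianization.of a ^ 16 * Abelianization.of b ^ 10) =
        Abelianization.of a ^ 16 * Abelianization.of b ^ 11 := by
      rw [mul_left_comm, ← pow_succ']
    rw [← h2] at e
    exact mul_eq_left.1 e

theorem a_pow_mem : a ^ 24 ∈ commutator H := by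
  rw [mem_commutator_iff, map_pow]
  exact (ab_pow ha hb).1

theorem b_pow_mem : b ^ 24 ∈ commutator H := by
  rw [mem_commutator_iff, map_pow]
  exact (ab_pow ha hb).2

include hs

theorem g_pow_mem : (a * s * b * s) ^ 24 ∈ commutator H := by
  have hσ : Abelianization.of s * Abelianization.of s = 1 := by
    rw [← map_mul, hs, map_one]
  rw [mem_commutator_iff, map_pow, map_mul, map_mul, map_mul]
  have e : Abelianization.of a * Abelianization.of s * Abelianization.of b *
      Abelianization.of s = Abelianization.of a * Abelianization.of b := by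
    rw [mul_right_comm (Abelianization.of a), mul_assoc _ (Abelianization.of s), hσ, mul_one]
  rw [e, mul_pow, (ab_pow ha hb).1, (ab_pow ha hb).2, one_mul]

end

theorem ab24 {H : Type} [Group H] {a b t : H}
    (ha : t * a * t⁻¹ = ((W.phL 0).map ![a, b]).prod)
    (hb : t * b * t⁻¹ = ((W.phL 1).map ![a, b]).prod) :
    a ^ 24 ∈ commutator H ∧ b ^ 24 ∈ commutator H :=
  ⟨a_pow_mem ha hb, b_pow_mem ha hb⟩

theorem g24 {H : Type} [Group H] {a b t s : H}
    (ha : t * a * t⁻¹ = ((W.phL 0).map ![a, b]).prod)
    (hb : t * b * t⁻¹ = ((W.phL 1).map ![a, b]).prod) (hs : s * s = 1) :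
    (a * s * b * s) ^ 24 ∈ commutator H :=
  g_pow_mem hs ha hb

end SclIrr.U
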