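import Pool.Agent.Lib.MP_ed1a61_al_U.Corner

/-! # Alternating words

A nonempty cyclic word all of whose corners are `(x, true, x')` with `x ≠ x'` is
`[(a,true),(b,true)]^n` or `[(b,true),(a,true)]^n`; its value is `(a s b s)^n` or
`(b s a s)^n = (a s)⁻¹ (a s b s)^n (a s)`.
`alt_dl`: if all the corners of `dl w z` are `(x, true, x')` with `x ≠ x'` then
`w = [(z,true),(z',true)]^n` (`z' = 1 - z` the other letter) or
`w = (z',true) :: [(z,true),(z',true)]^n`, by induction from the front.
`finish`: `Sc.of_isConj`, `sc_pow_iff`, induction over the words. -/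

set_option autoImplicit false

namespace SclIrr.U

open Pool.MP_ed1a61_al.Fill

variable {H : Type} [Group H] {x : Fin 2 → H} {s : H} {θ : ℝ}

private theorem alt_two (z : Fin 2) : z = 0 ∨ z = 1 := by
  revert z; decide

private theorem alt_sub (z : Fin 2) : 1 - (1 - z) = z := by
  revert z; decide

private theorem alt_ne {y z : Fin 2} (h : y ≠ z) : y = 1 - z := by
  revert y z; decide

private theorem alt_hd (n : ℕ) (z : Fin 2) :
    hd (List.replicate n [(z, true), (1 - z, true)]).flatten z = z := by
  cases n with
  | zero => rfl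
  | succ n => rfl

private theorem alt_count (n : ℕ) (z : Fin 2) :
    (((List.replicate n [(z, true), (1 - z, true)]).flatten).map Prod.fst).count 0 = n := by
  induction n with
  | zero => rfl
  | succ n ih =>
    rw [List.replicate_succ, List.flatten_cons, List.map_append, List.count_append, ih]
    rcases alt_two z with rfl | rfl
    · have h : List.count 0 (List.map Prod.fst [((0 : Fin 2), true), (1 - 0, true)]) = 1 := by
        decide
      rw [h]; omega
    · have h : List.count 0 (List.map Prod.fst [((1 : Fin 2), true), (1 - 1, true)]) = 1 := by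
        decide
      rw [h]; omega

private theorem alt_ev (n : ℕ) (z : Fin 2) :
    ev x s (List.replicate n [(z, true), (1 - z, true)]).flatten =
      (x z * s * x (1 - z) * s) ^ n := by
  induction n with
  | zero => rw [pow_zero]; rfl
  | succ n ih =>
    rw [List.replicate_succ, List.flatten_cons, ev_append, ih, pow_succ', ev_cons_true,
      ev_cons_true, ev_nil, mul_one]
    simp only [mul_assoc]

theorem alt_dl {z : Fin 2} {w : List (Fin 2 × Bool)}
    (h : ∀ c ∈ dl w z, c.2.1 = true ∧ c.1 ≠ c.2.2) :
    ∃ n : ℕ, w = (List.replicate n [(z, true), (1 - z, true)]).flatten ∨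
      w = (1 - z, true) :: (List.replicate n [(z, true), (1 - z, true)]).flatten := by
  induction w with
  | nil => exact ⟨0, Or.inl (by simp)⟩
  | cons p w ih =>
    rw [dl_cons] at h
    have h0 := h _ List.mem_cons_self
    obtain ⟨n, hn | hn⟩ := ih fun c hc => h c (List.mem_cons_of_mem _ hc)
    · have h1 : hd w z = z := by rw [hn]; exact alt_hd n z
      obtain ⟨h2, h3⟩ := h0
      simp only [h1] at h2 h3
      refine ⟨n, Or.inr ?_⟩
      rw [← hn]
      congr 1
      exact Prod.ext (alt_ne h3) h2
    · have h1 : hd w z = 1 - z := by rw [hn]; rfl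
      obtain ⟨h2, h3⟩ := h0
      simp only [h1] at h2 h3
      refine ⟨n + 1, Or.inl ?_⟩
      rw [List.replicate_succ, List.flatten_cons, hn]
      have h4 : p = (z, true) := by
        refine Prod.ext ?_ h2
        rw [alt_ne h3]
        exact alt_sub z
      rw [h4]
      rfl

theorem alt_word {w : List (Fin 2 × Bool)} (hw : w ≠ [])
    (h : ∀ c ∈ crn w, c.2.1 = true ∧ c.1 ≠ c.2.2) :
    IsConj (ev x s w) ((x 0 * s * x 1 * s) ^ ((w.map Prod.fst).count 0)) := by
  have _ := hw
  obtain ⟨n, hn | hn⟩ := alt_dl h
  · obtain ⟨z, hz⟩ : ∃ z, hd w 0 = z := ⟨_, rfl⟩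
    rw [hz] at hn
    have h1 : (w.map Prod.fst).count 0 = n := by
      rw [hn]; exact alt_count n z
    rw [h1, hn, alt_ev]
    rcases alt_two z with rfl | rfl
    · exact IsConj.refl _
    · rw [isConj_iff]
      refine ⟨x 0 * s, ?_⟩
      rw [← conj_pow]
      congr 1
      simp only [sub_self]
      group
  · exfalso
    have h1 : hd w 0 = 1 - hd w 0 := by
      conv_lhs => rw [hn]
      rfl
    rcases alt_two (hd w 0) with h2 | h2
    · rw [h2] at h1; exact absurd h1 (by decide)
    · rw [h2] at h1; exact absurd h1 (by decide)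

theorem finish {L : List (List (Fin 2 × Bool))} (hL : ∀ w ∈ L, w ≠ [])
    (h : ∀ c ∈ cor L, c.2.1 = true ∧ c.1 ≠ c.2.2) (hSc : Sc (L.map (ev x s)) θ) :
    Sc (List.replicate ((ltr L).count 0) (x 0 * s * x 1 * s)) θ := by
  have key : ∀ (L : List (List (Fin 2 × Bool))) (us : List H), (∀ w ∈ L, w ≠ []) →
      (∀ c ∈ cor L, c.2.1 = true ∧ c.1 ≠ c.2.2) → Sc (L.map (ev x s) ++ us) θ →
      Sc (List.replicate ((ltr L).count 0) (x 0 * s * x 1 * s) ++ us) θ := by
    intro L
    induction L with
    | nil => intro us _ _ h3; exact h3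
    | cons w L ih =>
      intro us h1 h2 h3
      have hw := h1 w List.mem_cons_self
      have hc : IsConj (ev x s w) ((x 0 * s * x 1 * s) ^ ((w.map Prod.fst).count 0)) :=
        alt_word hw fun c hc => h2 c (by
          unfold cor
          rw [List.flatMap_cons]
          exact List.mem_append_left _ hc)
      have h4 : Sc ((x 0 * s * x 1 * s) ^ ((w.map Prod.fst).count 0) ::
          (L.map (ev x s) ++ us)) θ := Sc.of_isConj h3 hc
      have h5 := (sc_pow_iff _).1 h4
      have h6 : Sc (L.map (ev x s) ++ (List.replicate ((w.map Prod.fst).count 0)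
          (x 0 * s * x 1 * s) ++ us)) θ := by
        refine h5.perm ?_
        rw [← List.append_assoc, ← List.append_assoc]
        exact List.Perm.append_right _ List.perm_append_comm
      have h7 := ih _ (fun w hw => h1 w (List.mem_cons_of_mem _ hw)) (fun c hc => h2 c (by
          unfold cor
          rw [List.flatMap_cons]
          exact List.mem_append_right _ hc)) h6
      have h8 : (ltr (w :: L)).count 0 = (ltr L).count 0 + (w.map Prod.fst).count 0 := by
        unfold ltr
        rw [List.flatten_cons, List.map_append, List.count_append, Nat.add_comm]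
      rw [h8, List.replicate_add, List.append_assoc]
      exact h7
  have h1 := key L [] hL h (by rw [List.append_nil]; exact hSc)
  rw [List.append_nil] at h1
  exact h1

end SclIrr.U
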