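import Pool.Agent.Lib.MP_ed1a61_al_U.Cnt
import Pool.Agent.Lib.MP_ed1a61_al_U.Alt

/-! # The band lemma

Apply `band_ind` with `k = 2N` to the doubled state `(L ++ L).map bw` (`Sc.append`), then
`finish`. -/

set_option autoImplicit false

namespace SclIrr.U

open Pool.MP_ed1a61_al.Fill

variable {H : Type} [Group H] {x : Fin 2 → H} {s : H} {θ : ℝ}

theorem ev_bw (w : List (Fin 2)) : ev x s (bw w) = (w.map x).prod := by
  induction w with
  | nil => rfl
  | cons y w ih =>
    have h1 : bw (y :: w) = (y, false) :: bw w := rfl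
    rw [h1, ev_cons_false, ih, List.map_cons, List.prod_cons]

/-- the band lemma: `N` letters `a` and `N` letters `b` in all -/
theorem band (hs : s * s = 1) {L : List (List (Fin 2))} (hL : ∀ w ∈ L, w ≠ []) {N : ℕ}
    (h0 : L.flatten.count 0 = N) (h1 : L.flatten.count 1 = N)
    (h : Sc (L.map fun w => (w.map x).prod) θ) :
    Sc (List.replicate (2 * N) (x 0 * s * x 1 * s)) (2 * θ + N) := by
  have e1 : ((L ++ L).map bw).map (ev x s) =
      (L.map fun w => (w.map x).prod) ++ L.map fun w => (w.map x).prod := by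
    rw [List.map_map, List.map_append]
    have e2 : L.map (ev x s ∘ bw) = L.map fun w => (w.map x).prod :=
      List.map_congr_left fun w _ => ev_bw w
    rw [e2]
  have h2 : Sc (((L ++ L).map bw).map (ev x s)) (θ + θ) := by
    rw [e1]
    exact h.append h
  obtain ⟨hb1, hb2⟩ := bal_double (L := L) (h0.trans h1.symm)
  have hne : ∀ w ∈ (L ++ L).map bw, w ≠ [] := by
    intro w hw
    obtain ⟨v, hv, rfl⟩ := List.mem_map.1 hw
    have hv1 : v ∈ L := by
      rcases List.mem_append.1 hv with h3 | h3 <;> exact h3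
    intro h3
    exact hL v hv1 (List.map_eq_nil_iff.1 h3)
  obtain ⟨L', c1, c2, c3, c4⟩ := band_ind (x := x) hs (2 * N) ((L ++ L).map bw) (θ + θ) hne hb1
    (by rw [hb2, h0]; ring) h2
  have h3 := finish c1 c2 c4
  have e3 : (ltr L').count 0 = 2 * N := by
    rw [c3.count_eq, ltr_bw, List.flatten_append, List.count_append, h0]
    ring
  have e4 : θ + θ + ((2 * N : ℕ) : ℝ) / 2 = 2 * θ + N := by
    push_cast
    ring
  rw [e3, e4] at h3
  exact h3

end SclIrr.U
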