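import Pool.Agent.Lib.MP_ed1a61_al_U.Pair

/-! # The induction over the bare corners

`Bal l`: as many bare corners `(a,a)` as `(b,b)`, an even number of bare corners `(a,b)` and of
bare corners `(b,a)`, the corners with flag `true` are `(a,b)` or `(b,a)`.
`band_ind`: induction on `k`.  If `k > 0` there is a bare corner; by `Bal` there are two bare
corners `(0,false,0), (1,false,1)`, or twice `(0,false,1)`, or twice `(1,false,0)`
(`List.count`, `List.perm_cons_erase`); `pair_step` replaces them by the two corners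
`(y, true, z')`, `(z, true, y')` with `y ≠ z'`, `z ≠ y'`: the new state is again balanced and has
two bare corners less. -/

set_option autoImplicit false

namespace SclIrr.U

open Pool.MP_ed1a61_al.Fill

variable {H : Type} [Group H] {x : Fin 2 → H} {s : H} {θ : ℝ}

/-- balanced corners -/
def Bal (l : List (Fin 2 × Bool × Fin 2)) : Prop :=
  l.count (0, false, 0) = l.count (1, false, 1) ∧ Even (l.count (0, false, 1)) ∧
    Even (l.count (1, false, 0)) ∧ ∀ c ∈ l, c.2.1 = true → c.1 ≠ c.2.2

/-- the number of bare corners -/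
def bare (l : List (Fin 2 × Bool × Fin 2)) : ℕ :=
  l.countP fun c => c.2.1 = false

private theorem bal_perm {l l' : List (Fin 2 × Bool × Fin 2)} (hp : l.Perm l') (h : Bal l) :
    Bal l' := by
  obtain ⟨h1, h2, h3, h4⟩ := h
  refine ⟨?_, ?_, ?_, fun c hc => h4 c (hp.mem_iff.2 hc)⟩
  · rw [← hp.count_eq, ← hp.count_eq]
    exact h1
  · rw [← hp.count_eq]
    exact h2
  · rw [← hp.count_eq]
    exact h3

private theorem two_mem {l : List (Fin 2 × Bool × Fin 2)} {a b : Fin 2 × Bool × Fin 2}
    (ha : a ∈ l) (hb : b ∈ l.erase a) :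
    ∃ R : List (Fin 2 × Bool × Fin 2), l.Perm (a :: b :: R) ∧ ∀ c ∈ R, c ∈ l :=
  ⟨(l.erase a).erase b, (List.perm_cons_erase ha).trans ((List.perm_cons_erase hb).cons a),
    fun _ hc => List.mem_of_mem_erase (List.mem_of_mem_erase hc)⟩

private theorem mem_erase_of_count {l : List (Fin 2 × Bool × Fin 2)}
    {a : Fin 2 × Bool × Fin 2} (h : 2 ≤ l.count a) : a ∈ l.erase a := by
  rw [← List.count_pos_iff, List.count_erase_self]
  omega

theorem bal_pair {l : List (Fin 2 × Bool × Fin 2)} (h : Bal l) (h0 : bare l ≠ 0) :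
    ∃ (y y' z z' : Fin 2) (R : List (Fin 2 × Bool × Fin 2)),
      l.Perm ((y, false, y') :: (z, false, z') :: R) ∧
      Bal ((y, true, z') :: (z, true, y') :: R) := by
  obtain ⟨h1, h2, h3, h4⟩ := h
  have hex : ∃ c ∈ l, c.2.1 = false := by
    have h5 : 0 < l.countP fun c => c.2.1 = false := Nat.pos_of_ne_zero h0
    obtain ⟨c, hc, hc'⟩ := List.countP_pos_iff.1 h5
    exact ⟨c, hc, by simpa using hc'⟩
  have caseA : 0 < l.count (0, false, 0) → ∃ (y y' z z' : Fin 2)
      (R : List (Fin 2 × Bool × Fin 2)), l.Perm ((y, false, y') :: (z, false, z') :: R) ∧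
      Bal ((y, true, z') :: (z, true, y') :: R) := by
    intro hpos
    have hpos' : 0 < l.count (1, false, 1) := h1 ▸ hpos
    have hm1 := List.count_pos_iff.1 hpos
    have hm2 : ((1 : Fin 2), false, (1 : Fin 2)) ∈ l.erase (0, false, 0) :=
      (List.mem_erase_of_ne (by decide)).2 (List.count_pos_iff.1 hpos')
    obtain ⟨R, hp, hRl⟩ := two_mem hm1 hm2
    refine ⟨0, 0, 1, 1, R, hp, ?_, ?_, ?_, ?_⟩
    · have e1 := hp.count_eq (0, false, 0)
      have e2 := hp.count_eq (1, false, 1)
      simp at e1 e2 ⊢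
      omega
    · have e1 := hp.count_eq (0, false, 1)
      simp at e1 ⊢
      rw [← e1]
      exact h2
    · have e1 := hp.count_eq (1, false, 0)
      simp at e1 ⊢
      rw [← e1]
      exact h3
    · intro c hc
      rcases List.mem_cons.1 hc with rfl | hc
      · intro _
        decide
      rcases List.mem_cons.1 hc with rfl | hc
      · intro _
        decide
      exact h4 c (hRl c hc)
  obtain ⟨⟨c1, c2, c3⟩, hc, hc'⟩ := hex
  have hc2 : c2 = false := hc'
  subst hc2
  have hcount := List.count_pos_iff.2 hc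
  have e1 : c1 = 0 ∨ c1 = 1 := by omega
  have e3 : c3 = 0 ∨ c3 = 1 := by omega
  rcases e1 with rfl | rfl <;> rcases e3 with rfl | rfl
  · exact caseA hcount
  · -- twice `(0, false, 1)`
    have h22 : 2 ≤ l.count (0, false, 1) := by
      obtain ⟨r, hr⟩ := h2
      omega
    obtain ⟨R, hp, hRl⟩ := two_mem hc (mem_erase_of_count h22)
    refine ⟨0, 1, 0, 1, R, hp, ?_, ?_, ?_, ?_⟩
    · have e1 := hp.count_eq (0, false, 0)
      have e2 := hp.count_eq (1, false, 1)
      simp at e1 e2 ⊢
      omega
    · have e1 := hp.count_eq (0, false, 1)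
      simp at e1 ⊢
      obtain ⟨r, hr⟩ := h2
      exact ⟨r - 1, by omega⟩
    · have e1 := hp.count_eq (1, false, 0)
      simp at e1 ⊢
      rw [← e1]
      exact h3
    · intro c hc
      rcases List.mem_cons.1 hc with rfl | hc
      · intro _
        decide
      rcases List.mem_cons.1 hc with rfl | hc
      · intro _
        decide
      exact h4 c (hRl c hc)
  · -- twice `(1, false, 0)`
    have h22 : 2 ≤ l.count (1, false, 0) := by
      obtain ⟨r, hr⟩ := h3
      omega
    obtain ⟨R, hp, hRl⟩ := two_mem hc (mem_erase_of_count h22)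
    refine ⟨1, 0, 1, 0, R, hp, ?_, ?_, ?_, ?_⟩
    · have e1 := hp.count_eq (0, false, 0)
      have e2 := hp.count_eq (1, false, 1)
      simp at e1 e2 ⊢
      omega
    · have e1 := hp.count_eq (0, false, 1)
      simp at e1 ⊢
      rw [← e1]
      exact h2
    · have e1 := hp.count_eq (1, false, 0)
      simp at e1 ⊢
      obtain ⟨r, hr⟩ := h3
      exact ⟨r - 1, by omega⟩
    · intro c hc
      rcases List.mem_cons.1 hc with rfl | hc
      · intro _
        decide
      rcases List.mem_cons.1 hc with rfl | hc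
      · intro _
        decide
      exact h4 c (hRl c hc)
  · exact caseA (h1 ▸ hcount)

theorem band_ind (hs : s * s = 1) (k : ℕ) : ∀ (L : List (List (Fin 2 × Bool))) (θ : ℝ),
    (∀ w ∈ L, w ≠ []) → Bal (cor L) → bare (cor L) = 2 * k → Sc (L.map (ev x s)) θ →
    ∃ L' : List (List (Fin 2 × Bool)), (∀ w ∈ L', w ≠ []) ∧
      (∀ c ∈ cor L', c.2.1 = true ∧ c.1 ≠ c.2.2) ∧ (ltr L').Perm (ltr L) ∧
      Sc (L'.map (ev x s)) (θ + k / 2) := by
  induction k with
  | zero =>
    intro L θ hL hb hk h
    refine ⟨L, hL, fun c hc => ?_, List.Perm.refl _, ?_⟩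
    · have h1 : (cor L).countP (fun c => c.2.1 = false) = 0 := by
        have := hk
        rw [mul_zero] at this
        exact this
      have h2 := List.countP_eq_zero.1 h1 c hc
      have h3 : c.2.1 = true := by simpa using h2
      exact ⟨h3, hb.2.2.2 c hc h3⟩
    · rw [Nat.cast_zero, zero_div, add_zero]
      exact h
  | succ k ih =>
    intro L θ hL hb hk h
    obtain ⟨y, y', z, z', R, hp, hb'⟩ := bal_pair hb (by omega)
    obtain ⟨L₁, hL₁, hp₁, hl₁, h₁⟩ := pair_step hs hL hp h
    have e1 : bare (cor L) = bare R + 2 := by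
      have := hp.countP_eq fun c => decide (c.2.1 = false)
      unfold bare
      rw [this]
      simp
    have e2 : bare (cor L₁) = bare R := by
      have := hp₁.countP_eq fun c => decide (c.2.1 = false)
      unfold bare
      rw [this]
      simp
    obtain ⟨L₂, hL₂, hc₂, hl₂, h₂⟩ := ih L₁ (θ + 1 / 2) hL₁ (bal_perm hp₁.symm hb')
      (by omega) h₁
    refine ⟨L₂, hL₂, hc₂, hl₂.trans hl₁, ?_⟩
    have e3 : θ + ((k + 1 : ℕ) : ℝ) / 2 = θ + 1 / 2 + (k : ℝ) / 2 := by
      push_cast
      ring
    rw [e3]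
    exact h₂

end SclIrr.U
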