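import Pool.Agent.Lib.MP_ed1a61_al_U.Corner
import Pool.Agent.Lib.MP_ed1a61_al_U.Ind

/-! # Counting the corners of bare words

`bare_word w`: the word `w` with all flags `false`.  For a cyclic word without flags every letter
is the first letter of exactly one corner and the second letter of exactly one corner:
`#(a,a) + #(a,b) = #a`, `#(b,a) + #(b,b) = #b`, `#(a,a) + #(b,a) = #a`, `#(a,b) + #(b,b) = #b`.
(For `dl l z`: first letters: `(dl l z).map (·.1) = l.map fst`; second letters:
`(dl l z).map (·.2.2) = (l.map fst).tail ++ [z]` for `l ≠ []`.)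
`bal_double`: for a doubled state all the counts are doubled, hence even, and
`#(a,a) - #(b,b) = #a - #b = 0`. -/

set_option autoImplicit false

namespace SclIrr.U

/-- a word without flags -/
def bw (w : List (Fin 2)) : List (Fin 2 × Bool) := w.map fun y => (y, false)

theorem cor_append (L L' : List (List (Fin 2 × Bool))) : cor (L ++ L') = cor L ++ cor L' := by
  simp [cor]

theorem ltr_bw (L : List (List (Fin 2))) : ltr (L.map bw) = L.flatten := by
  unfold ltr
  induction L with
  | nil => rfl
  | cons w L ih =>
    rw [List.map_cons, List.flatten_cons, List.map_append, ih, List.flatten_cons]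
    congr 1
    simp [bw, Function.comp_def]

private theorem cnt_fst (l : List (Fin 2)) (z x : Fin 2) :
    (dl (bw l) z).count (x, false, 0) + (dl (bw l) z).count (x, false, 1) = l.count x := by
  induction l with
  | nil => rfl
  | cons y l ih =>
    have h1 : dl (bw (y :: l)) z = (y, false, hd (bw l) z) :: dl (bw l) z := rfl
    rw [h1, List.count_cons, List.count_cons, List.count_cons, ← ih]
    have h0 : hd (bw l) z = 0 ∨ hd (bw l) z = 1 := by omega
    have hx : x = 0 ∨ x = 1 := by omega
    have hy : y = 0 ∨ y = 1 := by omega
    rcases h0 with h | h <;> rcases hx with rfl | rfl <;> rcases hy with rfl | rfl <;>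
      rw [h] <;> simp <;> omega

private theorem cnt_snd (l : List (Fin 2)) (z y : Fin 2) :
    (dl (bw l) z).count (0, false, y) + (dl (bw l) z).count (1, false, y) +
      [hd (bw l) z].count y = l.count y + [z].count y := by
  induction l with
  | nil =>
    show 0 + 0 + [z].count y = 0 + [z].count y
    omega
  | cons u l ih =>
    have h1 : dl (bw (u :: l)) z = (u, false, hd (bw l) z) :: dl (bw l) z := rfl
    have h2 : hd (bw (u :: l)) z = u := rfl
    rw [h1, h2]
    simp only [List.count_cons, List.count_nil] at ih ⊢
    have h0 : hd (bw l) z = 0 ∨ hd (bw l) z = 1 := by omega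
    have hu : u = 0 ∨ u = 1 := by omega
    have hy : y = 0 ∨ y = 1 := by omega
    rcases h0 with h | h <;> rcases hu with rfl | rfl <;> rcases hy with rfl | rfl <;>
      rw [h] at ih ⊢ <;> simp at ih ⊢ <;> omega

private theorem cnt_crn_snd (w : List (Fin 2)) (y : Fin 2) :
    (crn (bw w)).count (0, false, y) + (crn (bw w)).count (1, false, y) = w.count y := by
  cases w with
  | nil => rfl
  | cons u w =>
    have h1 := cnt_snd (u :: w) (hd (bw (u :: w)) 0) y
    have h2 : hd (bw (u :: w)) (hd (bw (u :: w)) 0) = hd (bw (u :: w)) 0 := rfl
    rw [h2] at h1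
    unfold crn
    omega

private theorem cnt_flag (l : List (Fin 2)) (z : Fin 2) :
    ∀ c ∈ dl (bw l) z, c.2.1 = false := by
  induction l with
  | nil =>
    intro c hc
    exact absurd hc (List.not_mem_nil)
  | cons y l ih =>
    intro c hc
    have h1 : dl (bw (y :: l)) z = (y, false, hd (bw l) z) :: dl (bw l) z := rfl
    rw [h1, List.mem_cons] at hc
    rcases hc with rfl | hc
    · rfl
    · exact ih c hc

private theorem cnt_cons (w : List (Fin 2)) (L : List (List (Fin 2))) :
    cor ((w :: L).map bw) = crn (bw w) ++ cor (L.map bw) := by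
  simp [cor]

private theorem cnt_flag' (L : List (List (Fin 2))) :
    ∀ c ∈ cor (L.map bw), c.2.1 = false := by
  induction L with
  | nil =>
    intro c hc
    exact absurd hc (List.not_mem_nil)
  | cons w L ih =>
    intro c hc
    rw [cnt_cons, List.mem_append] at hc
    rcases hc with hc | hc
    · exact cnt_flag w _ c hc
    · exact ih c hc

private theorem cnt_length (L : List (List (Fin 2))) :
    (cor (L.map bw)).length = L.flatten.count 0 + L.flatten.count 1 := by
  have h2 : ∀ l : List (Fin 2), l.length = l.count 0 + l.count 1 := by
    intro l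
    induction l with
    | nil => rfl
    | cons y l ih =>
      have hy : y = 0 ∨ y = 1 := by omega
      rw [List.count_cons, List.count_cons, List.length_cons, ih]
      rcases hy with rfl | rfl <;> simp <;> omega
  induction L with
  | nil => rfl
  | cons w L ih =>
    rw [cnt_cons, List.length_append, ih, List.flatten_cons, List.count_append,
      List.count_append]
    have h1 : (crn (bw w)).length = w.count 0 + w.count 1 := by
      rw [← h2]
      unfold crn
      rw [length_dl]
      simp [bw]
    omega

theorem count_bw {L : List (List (Fin 2))} :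
    (cor (L.map bw)).count (0, false, 0) + (cor (L.map bw)).count (0, false, 1) =
      L.flatten.count 0 ∧
    (cor (L.map bw)).count (1, false, 0) + (cor (L.map bw)).count (1, false, 1) =
      L.flatten.count 1 ∧
    (cor (L.map bw)).count (0, false, 0) + (cor (L.map bw)).count (1, false, 0) =
      L.flatten.count 0 := by
  induction L with
  | nil => exact ⟨rfl, rfl, rfl⟩
  | cons w L ih =>
    obtain ⟨h1, h2, h3⟩ := ih
    rw [cnt_cons]
    simp only [List.count_append, List.flatten_cons]
    have h4 : (crn (bw w)).count (0, false, 0) + (crn (bw w)).count (0, false, 1) =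
        w.count 0 := cnt_fst w _ 0
    have h5 : (crn (bw w)).count (1, false, 0) + (crn (bw w)).count (1, false, 1) =
        w.count 1 := cnt_fst w _ 1
    have h6 := cnt_crn_snd w 0
    refine ⟨?_, ?_, ?_⟩ <;> omega

theorem bal_double {L : List (List (Fin 2))} (h : L.flatten.count 0 = L.flatten.count 1) :
    Bal (cor ((L ++ L).map bw)) ∧ bare (cor ((L ++ L).map bw)) = 4 * L.flatten.count 0 := by
  obtain ⟨h1, h2, h3⟩ := count_bw (L := L)
  have h4 : cor ((L ++ L).map bw) = cor (L.map bw) ++ cor (L.map bw) := by
    rw [List.map_append, cor_append]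
  refine ⟨⟨?_, ?_, ?_, ?_⟩, ?_⟩
  · rw [h4]
    simp only [List.count_append]
    omega
  · rw [h4, List.count_append]
    exact ⟨_, rfl⟩
  · rw [h4, List.count_append]
    exact ⟨_, rfl⟩
  · intro c hc ht
    rw [cnt_flag' _ c hc] at ht
    exact absurd ht (by decide)
  · unfold bare
    have h5 : (cor ((L ++ L).map bw)).countP (fun c => decide (c.2.1 = false)) =
        (cor ((L ++ L).map bw)).length := by
      rw [List.countP_eq_length]
      intro c hc
      exact decide_eq_true (cnt_flag' _ c hc)
    rw [h5, h4, List.length_append, cnt_length]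
    omega

end SclIrr.U
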