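import Pool.Agent.Lib.MP_ed1a61_al_U.Defs

/-! # Corners of cyclic words

`hd_append`, `dl_append`: induction on `l`.  `dl_last`: `dl_append`.  `crn_rotate`: by
`dl_append` both sides are (up to a permutation) `dl u (hd v c) ++ dl v c'` where for nonempty
`u`, `v` the letters are `c = hd (u ++ v) 0 = hd u 0` and `c' = hd (v ++ u) 0 = hd v 0`:
`crn (u ++ v) = dl u (hd v (hd u 0)) ++ dl v (hd u 0)` and
`crn (v ++ u) = dl v (hd u (hd v 0)) ++ dl u (hd v 0)`; for a nonempty `v` the value `hd v z` does
not depend on `z`.  `pick_dl`: induction on `l`.  `pick`: `pick_dl` for `crn w = dl w (hd w 0)`. -/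

set_option autoImplicit false

namespace SclIrr.U

theorem hd_append (l l' : List (Fin 2 × Bool)) (z : Fin 2) : hd (l ++ l') z = hd l (hd l' z) := by
  cases l with
  | nil => rw [List.nil_append, hd_nil]
  | cons p l => rw [List.cons_append, hd_cons, hd_cons]

theorem hd_congr {l : List (Fin 2 × Bool)} (hl : l ≠ []) (z z' : Fin 2) : hd l z = hd l z' := by
  cases l with
  | nil => exact absurd rfl hl
  | cons p l => rw [hd_cons, hd_cons]

theorem dl_append (l l' : List (Fin 2 × Bool)) (z : Fin 2) :
    dl (l ++ l') z = dl l (hd l' z) ++ dl l' z := by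
  induction l with
  | nil => rw [List.nil_append, dl_nil, List.nil_append]
  | cons p l ih => rw [List.cons_append, dl_cons, dl_cons, ih, hd_append, List.cons_append]

theorem crn_last (u : List (Fin 2 × Bool)) (x : Fin 2) (f : Bool) :
    crn (u ++ [(x, f)]) = dl u x ++ [(x, f, hd u x)] := by
  rw [crn, hd_append, dl_append, hd_cons, hd_cons, dl_cons, dl_nil, hd_nil]

theorem crn_rotate (u v : List (Fin 2 × Bool)) : (crn (u ++ v)).Perm (crn (v ++ u)) := by
  rcases eq_or_ne u [] with hu | hu
  · rw [hu, List.nil_append, List.append_nil]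
  rcases eq_or_ne v [] with hv | hv
  · rw [hv, List.nil_append, List.append_nil]
  have h1 : crn (u ++ v) = dl u (hd v 0) ++ dl v (hd u 0) := by
    rw [crn, dl_append, hd_append, hd_congr hv _ 0, hd_congr hu (hd v 0) 0]
  have h2 : crn (v ++ u) = dl v (hd u 0) ++ dl u (hd v 0) := by
    rw [crn, dl_append, hd_append, hd_congr hu _ 0, hd_congr hv (hd u 0) 0]
  rw [h1, h2]
  exact List.perm_append_comm

theorem pick_dl {l : List (Fin 2 × Bool)} {z x x' : Fin 2} {f : Bool} (h : (x, f, x') ∈ dl l z) :
    ∃ u v, l = u ++ (x, f) :: v ∧ hd v z = x' := by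
  induction l with
  | nil => rw [dl_nil] at h; exact absurd h List.not_mem_nil
  | cons p l ih =>
    rw [dl_cons, List.mem_cons] at h
    rcases h with h | h
    · refine ⟨[], l, ?_, ?_⟩
      · simp only [Prod.mk.injEq] at h
        rw [List.nil_append, h.1, h.2.1]
      · simp only [Prod.mk.injEq] at h
        exact h.2.2.symm
    · obtain ⟨u, v, h1, h2⟩ := ih h
      exact ⟨p :: u, v, by rw [h1, List.cons_append], h2⟩

theorem pick {w : List (Fin 2 × Bool)} {x x' : Fin 2} {f : Bool} (h : (x, f, x') ∈ crn w) :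
    ∃ u v, w = u ++ (x, f) :: v ∧ hd (v ++ u) x = x' := by
  obtain ⟨u, v, h1, h2⟩ := pick_dl h
  refine ⟨u, v, h1, ?_⟩
  rw [hd_append, ← h2]
  congr 1
  rw [h1, hd_append, hd_cons]

theorem length_dl (l : List (Fin 2 × Bool)) (z : Fin 2) : (dl l z).length = l.length := by
  induction l with
  | nil => rfl
  | cons p l ih => rw [dl_cons, List.length_cons, List.length_cons, ih]

end SclIrr.U
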