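import Pool.Agent.Lib.MP_ed1a61_al.Fill.ScTorsion
import Pool.Agent.Lib.MP_ed1a61_al_W.Defs

/-! # MP_ed1a61_al, block U (upper bound): cyclic words and their corners

A state is a list of nonempty cyclic words in the letters `(x, f)`, `x : Fin 2`, `f : Bool`
(`0 = a`, `1 = b`); the letter `(x, true)` stands for `x * s`, the letter `(x, false)` for `x`.
A corner `(x, f, x')` of a cyclic word: letter `x` with flag `f`, followed by the letter `x'`.
-/

set_option autoImplicit false

namespace SclIrr.U

/-- the first letter of the word `l` followed by the letter `z` -/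
def hd (l : List (Fin 2 × Bool)) (z : Fin 2) : Fin 2 := (l.head?.map Prod.fst).getD z

/-- the corners of the linear word `l`, if the letter `z` follows -/
def dl : List (Fin 2 × Bool) → Fin 2 → List (Fin 2 × Bool × Fin 2)
  | [], _ => []
  | p :: l, z => (p.1, p.2, hd l z) :: dl l z

/-- the corners of the cyclic word `w` -/
def crn (w : List (Fin 2 × Bool)) : List (Fin 2 × Bool × Fin 2) := dl w (hd w 0)

/-- the corners of a state -/
def cor (L : List (List (Fin 2 × Bool))) : List (Fin 2 × Bool × Fin 2) := L.flatMap crn

/-- the letters of a state -/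
def ltr (L : List (List (Fin 2 × Bool))) : List (Fin 2) := L.flatten.map Prod.fst

/-- the value of a word -/
def ev {H : Type} [Group H] (x : Fin 2 → H) (s : H) (w : List (Fin 2 × Bool)) : H :=
  (w.map fun p => x p.1 * (if p.2 = true then s else 1)).prod

theorem hd_nil (z : Fin 2) : hd [] z = z := rfl

theorem hd_cons (p : Fin 2 × Bool) (l : List (Fin 2 × Bool)) (z : Fin 2) :
    hd (p :: l) z = p.1 := rfl

theorem dl_nil (z : Fin 2) : dl [] z = [] := rfl

theorem dl_cons (p : Fin 2 × Bool) (l : List (Fin 2 × Bool)) (z : Fin 2) :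
    dl (p :: l) z = (p.1, p.2, hd l z) :: dl l z := rfl

section

variable {H : Type} [Group H] (x : Fin 2 → H) (s : H)

theorem ev_nil : ev x s [] = 1 := rfl

theorem ev_cons_true (y : Fin 2) (w : List (Fin 2 × Bool)) :
    ev x s ((y, true) :: w) = x y * s * ev x s w := by simp [ev]

theorem ev_cons_false (y : Fin 2) (w : List (Fin 2 × Bool)) :
    ev x s ((y, false) :: w) = x y * ev x s w := by simp [ev]

theorem ev_append (u v : List (Fin 2 × Bool)) : ev x s (u ++ v) = ev x s u * ev x s v := by
  simp [ev]

end

end SclIrr.U
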