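import Pool.Agent.Lib.MP_ed1a61_al_U.Defs

/-! # The two surgeries, for the Sc calculus

`sc_rot`: `ev (v ++ u)` is conjugate to `ev (u ++ v)` (`Sc.of_isConj`).
`sc_same`: with `A = ev u`, `B = ev v` the first element is `A x_y B x_z = (A x_y s)(s B x_z)`
(`s * s = 1`); use `Sc.split`, then `s B x_z = s (B x_z s) s⁻¹` is conjugate to `B x_z s`
(`Sc.of_isConj` works on the head of the list, use `Sc.perm` with `List.Perm.swap`).
`sc_diff`: replace the second element `B x_z` by its conjugate `s (B x_z) s⁻¹ = s B x_z s`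
(`Sc.perm`, `Sc.of_isConj`, `Sc.perm`) and multiply with `Sc.mul`. -/

set_option autoImplicit false

namespace SclIrr.U

open Pool.MP_ed1a61_al.Fill

variable {H : Type} [Group H] {x : Fin 2 → H} {s : H} {us : List H} {θ : ℝ}

theorem sc_rot {u v : List (Fin 2 × Bool)} (h : Sc (ev x s (u ++ v) :: us) θ) :
    Sc (ev x s (v ++ u) :: us) θ := by
  refine h.of_isConj (isConj_iff.2 ⟨(ev x s u)⁻¹, ?_⟩)
  rw [ev_append, ev_append]
  group

theorem sc_same (hs : s * s = 1) {u v : List (Fin 2 × Bool)} {y z : Fin 2}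
    (h : Sc (ev x s (u ++ (y, false) :: v ++ [(z, false)]) :: us) θ) :
    Sc (ev x s (u ++ [(y, true)]) :: ev x s (v ++ [(z, true)]) :: us) (θ + 1 / 2) := by
  have h1 : ev x s (u ++ (y, false) :: v ++ [(z, false)]) =
      (ev x s u * x y * s) * (s * ev x s v * x z) := by
    rw [ev_append, ev_append, ev_cons_false, ev_cons_false, ev_nil, mul_one]
    have h2 : ev x s u * x y * s * (s * ev x s v * x z) =
        ev x s u * x y * (s * s) * ev x s v * x z := by group
    rw [h2, hs]
    group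
  rw [h1] at h
  have h3 := (h.split.perm (List.Perm.swap _ _ _)).of_isConj
    (v := ev x s v * x z * s) (isConj_iff.2 ⟨s⁻¹, by group⟩)
  have h4 := h3.perm (List.Perm.swap _ _ _)
  have h5 : ev x s (u ++ [(y, true)]) = ev x s u * x y * s := by
    rw [ev_append, ev_cons_true, ev_nil, mul_one, mul_assoc]
  have h6 : ev x s (v ++ [(z, true)]) = ev x s v * x z * s := by
    rw [ev_append, ev_cons_true, ev_nil, mul_one, mul_assoc]
  rw [h5, h6]
  exact h4

theorem sc_diff (hs : s * s = 1) {u v : List (Fin 2 × Bool)} {y z : Fin 2}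
    (h : Sc (ev x s (u ++ [(y, false)]) :: ev x s (v ++ [(z, false)]) :: us) θ) :
    Sc (ev x s (u ++ [(y, true)] ++ v ++ [(z, true)]) :: us) (θ + 1 / 2) := by
  have hs' : s⁻¹ = s := inv_eq_of_mul_eq_one_left hs
  have h1 := (h.perm (List.Perm.swap _ _ _)).of_isConj
    (v := s * ev x s (v ++ [(z, false)]) * s⁻¹) (isConj_iff.2 ⟨s, rfl⟩)
  have h2 := (h1.perm (List.Perm.swap _ _ _)).mul
  have h3 : ev x s (u ++ [(y, true)] ++ v ++ [(z, true)]) =
      ev x s (u ++ [(y, false)]) * (s * ev x s (v ++ [(z, false)]) * s⁻¹) := by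
    rw [hs']
    simp only [ev_append, ev_cons_true, ev_cons_false, ev_nil, mul_one, mul_assoc]
  rw [h3]
  exact h2

end SclIrr.U
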