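import Pool.Agent.Lib.MP_ed1a61_al_U.Corner
import Pool.Agent.Lib.MP_ed1a61_al_U.Step

/-! # One surgery at two bare corners

Proof.  The corner `(y, false, y')` lies in some word `w` of `L` (`List.mem_flatMap`), so up to a
permutation `L = w :: L₁`; by `pick` and a rotation (`sc_rot`, `crn_rotate`) we may take
`w = u ++ [(y, false)]` with `hd u y = y'`, `crn w = dl u y ++ [(y, false, y')]` (`crn_last`).
Cancelling (`List.perm_cons`, `List.perm_middle`): `dl u y ++ cor L₁` is a permutation of
`(z, false, z') :: R`, so `(z, false, z')` is in `dl u y` or in `cor L₁`.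

Same word: `pick_dl`: `u = u₁ ++ (z, false) :: v₁` with `hd v₁ y = z'`,
`dl u y = dl u₁ z ++ (z, false, z') :: dl v₁ y` (`dl_append`).  New state:
`(u₁ ++ [(z, true)]) :: (v₁ ++ [(y, true)]) :: L₁` (`sc_same`), corners
`dl u₁ z ++ [(z, true, y')]` (as `hd u₁ z = hd u y = y'`) and `dl v₁ y ++ [(y, true, z')]`.

Different words: `(z, false, z')` is in `w₂ ∈ L₁`, `L₁ = w₂ :: L₂` up to a permutation, after a
rotation `w₂ = v ++ [(z, false)]`, `hd v z = z'`.  New state:
`(u ++ [(y, true)] ++ v ++ [(z, true)]) :: L₂` (`sc_diff`), corners of the new word: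
`dl u y ++ (y, true, z') :: dl v z ++ [(z, true, y')]`.

The letters are unchanged up to a permutation. -/

set_option autoImplicit false

namespace SclIrr.U

open Pool.MP_ed1a61_al.Fill

variable {H : Type} [Group H] {x : Fin 2 → H} {s : H} {θ : ℝ}

private theorem cc (b : Fin 2 × Bool × Fin 2) (l : List (Fin 2 × Bool × Fin 2))
    (a : Fin 2 × Bool × Fin 2) : (b :: l).count a = [b].count a + l.count a := by
  rw [← List.count_append]
  rfl

private theorem extract (x : Fin 2 → H) (s : H) {L : List (List (Fin 2 × Bool))}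
    (hL : ∀ w ∈ L, w ≠ []) {y y' : Fin 2} {f : Bool} (hc : (y, f, y') ∈ cor L) :
    ∃ (u : List (Fin 2 × Bool)) (L₁ : List (List (Fin 2 × Bool))), hd u y = y' ∧
      (∀ w ∈ L₁, w ≠ []) ∧
      (∀ a, (cor L).count a = (dl u y).count a + [(y, f, y')].count a + (cor L₁).count a) ∧
      (∀ a, (ltr L).count a = (u.map Prod.fst).count a + [y].count a + (ltr L₁).count a) ∧
      ∀ (vs : List H) (θ : ℝ), Sc (vs ++ L.map (ev x s)) θ →
        Sc (ev x s (u ++ [(y, f)]) :: (vs ++ L₁.map (ev x s))) θ := by
  obtain ⟨w, hw, hcw⟩ := List.mem_flatMap.1 hc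
  obtain ⟨s1, s2, rfl⟩ := List.append_of_mem hw
  obtain ⟨u0, v0, hw2, hhd⟩ := pick hcw
  have hw3 : w = (u0 ++ [(y, f)]) ++ v0 := by
    rw [hw2, List.append_assoc]
    rfl
  refine ⟨v0 ++ u0, s1 ++ s2, hhd, ?_, ?_, ?_, ?_⟩
  · intro w' hw'
    apply hL
    rw [List.mem_append] at hw' ⊢
    rcases hw' with h | h
    · exact Or.inl h
    · exact Or.inr (List.mem_cons_of_mem _ h)
  · intro a
    have h1 : (crn w).count a = (dl (v0 ++ u0) y).count a + [(y, f, y')].count a := by
      rw [hw3, (crn_rotate (u0 ++ [(y, f)]) v0).count_eq, ← List.append_assoc, crn_last, hhd,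
        List.count_append]
    have h2 : cor (s1 ++ w :: s2) = cor s1 ++ (crn w ++ cor s2) := by
      rw [cor, List.flatMap_append, List.flatMap_cons]
      rfl
    have h3 : cor (s1 ++ s2) = cor s1 ++ cor s2 := by
      rw [cor, List.flatMap_append]
      rfl
    rw [h2, h3, List.count_append, List.count_append, List.count_append, h1]
    omega
  · intro a
    have h1 : (w.map Prod.fst).count a =
        (u0.map Prod.fst).count a + [y].count a + (v0.map Prod.fst).count a := by
      rw [hw3, List.map_append, List.map_append, List.count_append, List.count_append]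
      rfl
    have h2 : ltr (s1 ++ w :: s2) = ltr s1 ++ (w.map Prod.fst ++ ltr s2) := by
      rw [ltr, List.flatten_append, List.flatten_cons, List.map_append, List.map_append]
      rfl
    have h3 : ltr (s1 ++ s2) = ltr s1 ++ ltr s2 := by
      rw [ltr, List.flatten_append, List.map_append]
      rfl
    rw [h2, h3, List.map_append, List.count_append, List.count_append, List.count_append,
      List.count_append, h1]
    omega
  · intro vs θ h
    have h1 : (vs ++ (s1 ++ w :: s2).map (ev x s)).Perm
        (ev x s ((u0 ++ [(y, f)]) ++ v0) :: (vs ++ (s1 ++ s2).map (ev x s))) := by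
      rw [hw3, List.map_append, List.map_append, List.map_cons, ← List.append_assoc,
        ← List.append_assoc]
      exact List.perm_middle
    have h2 := sc_rot (h.perm h1)
    rw [← List.append_assoc] at h2
    exact h2

theorem pair_step (hs : s * s = 1) {L : List (List (Fin 2 × Bool))} (hL : ∀ w ∈ L, w ≠ [])
    {y y' z z' : Fin 2} {R : List (Fin 2 × Bool × Fin 2)}
    (hc : (cor L).Perm ((y, false, y') :: (z, false, z') :: R))
    (h : Sc (L.map (ev x s)) θ) :
    ∃ L' : List (List (Fin 2 × Bool)), (∀ w ∈ L', w ≠ []) ∧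
      (cor L').Perm ((y, true, z') :: (z, true, y') :: R) ∧ (ltr L').Perm (ltr L) ∧
      Sc (L'.map (ev x s)) (θ + 1 / 2) := by
  have hc1 : (y, false, y') ∈ cor L := hc.mem_iff.2 List.mem_cons_self
  obtain ⟨u, L₁, hu, hL₁, hcor, hfl, hsc⟩ := extract x s hL hc1
  have h1 := hsc [] θ h
  rw [List.nil_append] at h1
  have hp : (dl u y ++ cor L₁).Perm ((z, false, z') :: R) := by
    rw [List.perm_iff_count]
    intro a
    have h2 := hc.count_eq a
    rw [hcor a, cc (y, false, y') ((z, false, z') :: R)] at h2
    rw [List.count_append]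
    omega
  have hd2 : (z, false, z') ∈ dl u y ++ cor L₁ := hp.mem_iff.2 List.mem_cons_self
  rw [List.mem_append] at hd2
  rcases hd2 with hd2 | hd2
  · obtain ⟨u₁, v₁, hu₁, hv₁⟩ := pick_dl hd2
    have hdl : dl u y = dl u₁ z ++ (z, false, z') :: dl v₁ y := by
      rw [hu₁, dl_append, hd_cons, dl_cons, hv₁]
    have hhu : hd u₁ z = y' := by
      rw [← hu, hu₁, hd_append, hd_cons]
    refine ⟨(u₁ ++ [(z, true)]) :: (v₁ ++ [(y, true)]) :: L₁, ?_, ?_, ?_, ?_⟩
    · intro w hw
      rw [List.mem_cons, List.mem_cons] at hw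
      rcases hw with hw | hw | hw
      · rw [hw]
        simp
      · rw [hw]
        simp
      · exact hL₁ w hw
    · rw [List.perm_iff_count]
      intro a
      have h2 := hp.count_eq a
      have h3 : cor ((u₁ ++ [(z, true)]) :: (v₁ ++ [(y, true)]) :: L₁) =
          (dl u₁ z ++ [(z, true, y')]) ++ ((dl v₁ y ++ [(y, true, z')]) ++ cor L₁) := by
        rw [cor, List.flatMap_cons, List.flatMap_cons, crn_last, crn_last, hhu, hv₁]
        rfl
      rw [h3, cc (y, true, z'), cc (z, true, y')]
      rw [hdl, List.count_append, List.count_append, cc (z, false, z') (dl v₁ y),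
        cc (z, false, z') R] at h2
      simp only [List.count_append]
      omega
    · rw [List.perm_iff_count]
      intro a
      have h2 := hfl a
      have h3 : ltr ((u₁ ++ [(z, true)]) :: (v₁ ++ [(y, true)]) :: L₁) =
          (u₁.map Prod.fst ++ [z]) ++ ((v₁.map Prod.fst ++ [y]) ++ ltr L₁) := by
        rw [ltr, List.flatten_cons, List.flatten_cons, List.map_append, List.map_append,
          List.map_append, List.map_append]
        rfl
      have h4 : u.map Prod.fst = u₁.map Prod.fst ++ ([z] ++ v₁.map Prod.fst) := by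
        rw [hu₁, List.map_append, List.map_cons]
        rfl
      rw [h4, List.count_append, List.count_append] at h2
      rw [h3, h2]
      simp only [List.count_append]
      omega
    · rw [hu₁] at h1
      exact sc_same hs h1
  · obtain ⟨v, L₂, hv, hL₂, hcor2, hfl2, hsc2⟩ := extract x s hL₁ hd2
    have h2 := hsc2 [ev x s (u ++ [(y, false)])] θ h1
    have h3 := sc_diff hs (h2.perm (List.Perm.swap _ _ _))
    refine ⟨(u ++ [(y, true)] ++ v ++ [(z, true)]) :: L₂, ?_, ?_, ?_, h3⟩
    · intro w hw
      rw [List.mem_cons] at hw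
      rcases hw with hw | hw
      · rw [hw]
        simp
      · exact hL₂ w hw
    · rw [List.perm_iff_count]
      intro a
      have h4 := hp.count_eq a
      have h5 : hd (u ++ [(y, true)] ++ v) z = y' := by
        rw [hd_append, hd_append, hd_cons, hu]
      have h6 : dl (u ++ [(y, true)] ++ v) z = dl u y ++ [(y, true, z')] ++ dl v z := by
        rw [dl_append, dl_append, hd_cons, dl_cons, dl_nil, hd_nil, hv]
      have h7 : cor ((u ++ [(y, true)] ++ v ++ [(z, true)]) :: L₂) =
          (dl u y ++ [(y, true, z')] ++ dl v z ++ [(z, true, y')]) ++ cor L₂ := by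
        rw [cor, List.flatMap_cons, crn_last, h5, h6]
        rfl
      rw [h7, cc (y, true, z'), cc (z, true, y')]
      rw [List.count_append, hcor2 a, cc (z, false, z') R] at h4
      simp only [List.count_append]
      omega
    · rw [List.perm_iff_count]
      intro a
      have h4 := hfl a
      have h5 := hfl2 a
      have h6 : ltr ((u ++ [(y, true)] ++ v ++ [(z, true)]) :: L₂) =
          (u.map Prod.fst ++ [y] ++ v.map Prod.fst ++ [z]) ++ ltr L₂ := by
        rw [ltr, List.flatten_cons, List.map_append, List.map_append, List.map_append,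
          List.map_append]
        rfl
      rw [h6, h4, h5]
      simp only [List.count_append]
      omega

end SclIrr.U
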