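import Pool.Agent.Lib.MP_ed1a61_al_U.Band
import Pool.Agent.Lib.MP_ed1a61_al_W.Cnt
import Pool.Agent.Lib.MP_ed1a61_al_U.Ab

/-! # The upper bound

`phx`: the value of `ph w` is the conjugate by `t` of the value of `w`; so the value of
`φ^k(a)` is conjugate to `a`.
`sc_a`: `a ^ 24` is a product of commutators (`exists_cl`), `sc_of_cl`, `sc_pow_iff`, `Sc.div`.
`sc_b`: `b ^ 6000 = ⁅c,d⁆ ⁅e,f⁆`, `sc_of_cl` with `K = 2`, `sc_pow_iff`, `Sc.div`.
`upper`: for every `k ≥ 1` apply the band lemma to `[φ^k(a)] ++ replicate (p_k - q_k) [b]`,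
`N = p_k`: `Sc (replicate (2 p_k) g₀) (2 (c + (p_k - q_k) 3/12000) + p_k)`, divide by `2 p_k`
(`Sc.div`): `Sc [g₀] (c/p_k + (1 - q_k/p_k) 3/12000 + 1/2)`; with `|q_k - ρ p_k| ≤ 1` and
`p_k ≥ 13^k`, and `sc_of_forall`. -/

set_option autoImplicit false

namespace SclIrr.U

open Pool.MP_ed1a61_al.Fill

variable {H : Type} [Group H]

private theorem phx_one {a b t : H} (ha : t * a * t⁻¹ = ((W.phL 0).map ![a, b]).prod)
    (hb : t * b * t⁻¹ = ((W.phL 1).map ![a, b]).prod) (w : List (Fin 2)) :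
    ((W.ph w).map ![a, b]).prod = t * (w.map ![a, b]).prod * t⁻¹ := by
  induction w with
  | nil => simp [W.ph_nil]
  | cons x w ih =>
    rw [W.ph_cons, List.map_append, List.prod_append, ih, List.map_cons, List.prod_cons]
    have hx : ((W.phL x).map ![a, b]).prod = t * ![a, b] x * t⁻¹ := by
      have h0 : x = 0 ∨ x = 1 := by omega
      rcases h0 with rfl | rfl
      · exact ha.symm
      · exact hb.symm
    rw [hx]
    group

theorem phx {a b t : H} (ha : t * a * t⁻¹ = ((W.phL 0).map ![a, b]).prod)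
    (hb : t * b * t⁻¹ = ((W.phL 1).map ![a, b]).prod) (k : ℕ) (w : List (Fin 2)) :
    ((W.ph^[k] w).map ![a, b]).prod = t ^ k * (w.map ![a, b]).prod * (t ^ k)⁻¹ := by
  induction k with
  | zero => simp
  | succ k ih =>
    rw [Function.iterate_succ_apply', phx_one ha hb, ih, pow_succ']
    group

private theorem flatten_rep {H : Type} (u : H) (n : ℕ) :
    (List.replicate n [u]).flatten = List.replicate n u := by
  induction n with
  | zero => rfl
  | succ n ih => rw [List.replicate_succ, List.flatten_cons, ih, List.replicate_succ]; rfl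

private theorem sc_root {u : H} {n : ℕ} (hn : 0 < n) {θ : ℝ} (h : Sc [u ^ n] (n * θ)) :
    Sc [u] θ := by
  refine Sc.div hn ?_
  rw [flatten_rep]
  have h1 := (sc_pow_iff n).1 h
  rwa [List.append_nil] at h1

private theorem sc_rep {u : H} {θ : ℝ} (h : Sc [u] θ) (n : ℕ) :
    Sc (List.replicate n u) (n * θ) := by
  induction n with
  | zero => simpa using sc_nil
  | succ n ih =>
    have h1 := h.append ih
    rw [List.replicate_succ]
    refine Sc.mono h1 (le_of_eq ?_)
    push_cast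
    ring

theorem sc_a {a : H} (h : a ^ 24 ∈ commutator H) : ∃ c : ℝ, Sc [a] c := by
  obtain ⟨K, hK⟩ := exists_cl h
  have h1 := sc_of_cl (K := K + 1) (by omega) (hK.mono (Nat.le_succ K))
  exact ⟨(((K + 1 : ℕ) : ℝ) - 1 / 2) / 24, sc_root (n := 24) (by norm_num)
    (h1.mono (le_of_eq (by push_cast; ring)))⟩

theorem sc_b {b c d e f : H} (h : b ^ 6000 = c * d * c⁻¹ * d⁻¹ * (e * f * e⁻¹ * f⁻¹)) :
    Sc [b] (3 / 12000) := by
  have hcl : CL 2 (b ^ 6000) := by
    rw [h]
    exact (cl_commutator c d).mul (cl_commutator e f)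
  refine sc_root (n := 6000) (by norm_num) (Sc.mono (sc_of_cl (by norm_num) hcl) ?_)
  norm_num

private theorem upper_k {a b t s : H} (ha : t * a * t⁻¹ = ((W.phL 0).map ![a, b]).prod)
    (hb : t * b * t⁻¹ = ((W.phL 1).map ![a, b]).prod) (hs : s * s = 1) {c β : ℝ}
    (hc : Sc [a] c) (hβ : Sc [b] β) (k : ℕ) :
    Sc [a * s * b * s] (c / W.pc k + (1 - W.qc k / W.pc k) * β + 1 / 2) := by
  have hp := W.pc_pos k
  have hq := W.qc_le_pc k
  have hp' : (0 : ℝ) < W.pc k := by exact_mod_cast hp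
  obtain ⟨n, hn⟩ : ∃ n, W.pc k = W.qc k + n := ⟨W.pc k - W.qc k, by omega⟩
  have hn' : (n : ℝ) = W.pc k - W.qc k := by
    rw [hn]
    push_cast
    ring
  have hne : W.ph^[k] [0] ≠ [] := fun h => by
    have := W.iter_eq_nil h
    simp at this
  have h0 : ((W.ph^[k] [0] :: List.replicate n [1]).flatten).count 0 = W.pc k := by
    rw [List.flatten_cons, List.count_append]
    have : (List.replicate n (1 : Fin 2)).count 0 = 0 := by
      rw [List.count_eq_zero]
      intro h
      exact absurd (List.eq_of_mem_replicate h) (by decide)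
    rw [flatten_rep, this, add_zero]
    rfl
  have h1 : ((W.ph^[k] [0] :: List.replicate n [1]).flatten).count 1 = W.pc k := by
    rw [List.flatten_cons, List.count_append]
    rw [flatten_rep, List.count_replicate_self, hn]
    rfl
  have hL : ∀ w ∈ W.ph^[k] [0] :: List.replicate n [(1 : Fin 2)], w ≠ [] := by
    intro w hw
    rw [List.mem_cons, List.mem_replicate] at hw
    rcases hw with rfl | ⟨-, rfl⟩
    · exact hne
    · simp
  have hsc : Sc ((W.ph^[k] [0] :: List.replicate n [(1 : Fin 2)]).map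
      fun w => (w.map ![a, b]).prod) (c + n * β) := by
    rw [List.map_cons, List.map_replicate, phx ha hb]
    have e1 : (List.map ![a, b] [(1 : Fin 2)]).prod = b := by simp
    have e2 : (List.map ![a, b] [(0 : Fin 2)]).prod = a := by simp
    rw [e1, e2]
    exact (hc.append (sc_rep hβ n)).of_isConj (isConj_iff.2 ⟨t ^ k, rfl⟩)
  have hband := band hs hL h0 h1 hsc
  have h2 : Sc (List.replicate (2 * W.pc k) (a * s * b * s)) (2 * (c + n * β) + W.pc k) := hband
  refine Sc.div (m := 2 * W.pc k) (by omega) ?_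
  rw [flatten_rep]
  refine h2.mono (le_of_eq ?_)
  rw [hn']
  push_cast
  field_simp

/-- the upper bound of the stable commutator length of `a s b s` -/
theorem upper {a b t s c d e f : H} (ha : t * a * t⁻¹ = ((W.phL 0).map ![a, b]).prod)
    (hb : t * b * t⁻¹ = ((W.phL 1).map ![a, b]).prod) (hs : s * s = 1)
    (hx : b ^ 6000 = c * d * c⁻¹ * d⁻¹ * (e * f * e⁻¹ * f⁻¹)) :
    Sc [a * s * b * s] (1 / 2 + 3 / 12000 * (1 - W.rho)) := by
  obtain ⟨γ, hγ⟩ := sc_a (ab24 ha hb).1
  have hβ := sc_b hx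
  refine sc_of_forall fun s' hs' => ?_
  have hpc : Filter.Tendsto (fun k : ℕ => (W.pc k : ℝ)) Filter.atTop Filter.atTop :=
    Filter.tendsto_atTop_mono (fun k => by exact_mod_cast W.pow_le_pc k)
      (tendsto_pow_atTop_atTop_of_one_lt (by norm_num : (1 : ℝ) < 13))
  have h1 : Filter.Tendsto (fun k : ℕ => γ / (W.pc k : ℝ)) Filter.atTop (nhds 0) :=
    tendsto_const_nhds.div_atTop hpc
  have h2 := (h1.add ((W.tendsto_qc_div_pc.const_sub 1).mul_const (3 / 12000 : ℝ))).add_const
    (1 / 2 : ℝ)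
  have h3 : 0 + (1 - W.rho) * (3 / 12000 : ℝ) + 1 / 2 < s' := by linarith
  obtain ⟨k, hk⟩ := (h2.eventually (gt_mem_nhds h3)).exists
  exact (upper_k ha hb hs hγ hβ k).mono hk.le

end SclIrr.U
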